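import Pool.Agent.NH36.Ab.Simple

/-!
# The bound for the dimension of the spaces of morphisms from the unit object
-/

set_option autoImplicit false
set_option linter.unusedSectionVars false

open CategoryTheory MonoidalCategory BraidedCategory Limits

universe v u w

namespace Pool.Agent.NH36.Ab

section zeta

variable {K : Type w} [Field K] [CharZero K]

lemma zeta_indep (d : K →₀ ℤ) (h : ∀ n : ℕ, d.sum (fun a c => (c : K) * a ^ n) = 0) : d = 0 := by
  have h1 : LinearIndependent K (fun a : K => (powersHom K a : Multiplicative ℕ → K)) :=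
    (linearIndependent_monoidHom (Multiplicative ℕ) K).comp (fun a : K => powersHom K a)
      (powersHom K).injective
  rw [linearIndependent_iff'] at h1
  ext a
  by_cases ha : a ∈ d.support
  · have h2 := h1 d.support (fun a => (d a : K)) ?_ a ha
    · rw [Finsupp.zero_apply]
      exact_mod_cast h2
    · funext n
      have h3 := h (Multiplicative.toAdd n)
      rw [Finsupp.sum] at h3
      simpa [Finset.sum_apply] using h3
  · rw [Finsupp.notMem_support_iff] at ha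
    rw [ha, Finsupp.zero_apply]

end zeta

variable {C : Type u} [Category.{v} C] [Abelian C] [Linear ℚ C] [MonoidalCategory C]
  [SymmetricCategory C] [MonoidalPreadditive C] [MonoidalLinear ℚ C] [RightRigidCategory C]

/-- The powers of an endomorphism. -/
def pw {M : C} (φ : M ⟶ M) : ℕ → (M ⟶ M)
  | 0 => 𝟙 M
  | n + 1 => φ ≫ pw φ n

/-- The trace of the `n`-th power of `φ` is `∑ m a * a ^ n`. -/
def IsZeta (K : Type w) [Field K] [CharZero K] {M : C} (φ : M ⟶ M) (m : K →₀ ℤ) : Prop :=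
  ∀ n : ℕ, ∃ r : ℚ, tr M Mᘁ (pw φ n) = r • 𝟙 (𝟙_ C) ∧ (r : K) = m.sum fun a c => (c : K) * a ^ n

/-- A natural family of endomorphisms which satisfies the trace formula, such that `1` is no
zero of the zeta functions. -/
structure IsFrob (K : Type w) [Field K] [CharZero K] (fr : ∀ M : C, M ⟶ M) : Prop where
  nat : ∀ {M N : C} (g : M ⟶ N), g ≫ fr N = fr M ≫ g
  unit : fr (𝟙_ C) = 𝟙 _
  zeta : ∀ M, ∃ m : K →₀ ℤ, IsZeta K (fr M) m ∧ 0 ≤ m 1

variable {K : Type w} [Field K] [CharZero K] {fr : ∀ M : C, M ⟶ M}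

lemma IsFrob.nat_pw (F : IsFrob K fr) {M N : C} (g : M ⟶ N) (n : ℕ) :
    g ≫ pw (fr N) n = pw (fr M) n ≫ g := by
  induction n with
  | zero => simp [pw]
  | succ n ih => rw [pw, pw, Category.assoc, ← ih, ← Category.assoc, F.nat, Category.assoc]

lemma IsFrob.unit_pw (F : IsFrob K fr) (n : ℕ) : pw (fr (𝟙_ C)) n = 𝟙 _ := by
  induction n with
  | zero => rfl
  | succ n ih => rw [pw, ih, F.unit, Category.comp_id]

lemma smul_cancel {M : C} {f : 𝟙_ C ⟶ M} (hf : f ≠ 0) {r s : ℚ}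
    (h : (r • 𝟙 (𝟙_ C)) ≫ f = (s • 𝟙 (𝟙_ C)) ≫ f) : r = s := by
  rw [Linear.smul_comp, Linear.smul_comp, Category.id_comp, ← sub_eq_zero, ← sub_smul] at h
  exact sub_eq_zero.1 ((smul_eq_zero.1 h).resolve_right hf)

lemma IsZeta.unique {M : C} {φ : M ⟶ M} {m m' : K →₀ ℤ} (h1 : 𝟙 (𝟙_ C) ≠ 0)
    (hm : IsZeta K φ m) (hm' : IsZeta K φ m') : m = m' := by
  rw [← sub_eq_zero]
  apply zeta_indep
  intro n
  obtain ⟨r, hr, hr2⟩ := hm n
  obtain ⟨s, hs, hs2⟩ := hm' n
  have h2 : r = s := by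
    rw [hr, ← sub_eq_zero, ← sub_smul] at hs
    exact sub_eq_zero.1 ((smul_eq_zero.1 hs).resolve_right h1)
  rw [Finsupp.sum_sub_index (by intros; push_cast; ring), ← hr2, ← hs2, h2, sub_self]

lemma IsFrob.zeta_coker (F : IsFrob K fr) {M : C} {f : 𝟙_ C ⟶ M} (hf : f ≠ 0) {m m' : K →₀ ℤ}
    (hm : IsZeta K (fr M) m) (hm' : IsZeta K (fr (cokernel f)) m') :
    m = m' + Finsupp.single 1 1 := by
  rw [← sub_eq_zero]
  apply zeta_indep
  intro n
  obtain ⟨r, hr, hr2⟩ := hm n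
  obtain ⟨s, hs, hs2⟩ := hm' n
  have h1 := tr_add f (pw (fr M) n) (pw (fr (cokernel f)) n) (F.nat_pw _ n)
  rw [F.nat_pw f n, F.unit_pw, Category.id_comp, hr, hs] at h1
  have h2 : r = 1 + s := by
    apply smul_cancel hf
    rw [h1, add_smul, Preadditive.add_comp, one_smul, Category.id_comp]
  rw [Finsupp.sum_sub_index (by intros; push_cast; ring),
    Finsupp.sum_add_index' (by simp) (by intros; push_cast; ring), ← hr2, ← hs2, h2]
  simp
  ring

theorem IsFrob.dim_aux (F : IsFrob K fr) (hE : EndUnit C) (k : ℕ) : ∀ (M : C) (m : K →₀ ℤ),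
    IsZeta K (fr M) m → m 1 = k →
      Module.Finite ℚ (𝟙_ C ⟶ M) ∧ Module.finrank ℚ (𝟙_ C ⟶ M) ≤ k := by
  induction k with
  | zero =>
    intro M m hm hk
    have h0 : ∀ f : 𝟙_ C ⟶ M, f = 0 := by
      intro f
      by_contra hf
      obtain ⟨m', hm', hm1⟩ := F.zeta (cokernel f)
      have h1 := F.zeta_coker hf hm hm'
      rw [h1, Finsupp.add_apply, Finsupp.single_eq_same] at hk
      push_cast at hk
      omega
    have : Subsingleton (𝟙_ C ⟶ M) := ⟨fun f g => by rw [h0 f, h0 g]⟩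
    exact ⟨inferInstance, by rw [Module.finrank_zero_of_subsingleton]⟩
  | succ k ih =>
    intro M m hm hk
    by_cases h0 : ∀ f : 𝟙_ C ⟶ M, f = 0
    · have : Subsingleton (𝟙_ C ⟶ M) := ⟨fun f g => by rw [h0 f, h0 g]⟩
      exact ⟨inferInstance, by rw [Module.finrank_zero_of_subsingleton]; omega⟩
    push Not at h0
    obtain ⟨f, hf⟩ := h0
    obtain ⟨m', hm', hm1⟩ := F.zeta (cokernel f)
    have h1 := F.zeta_coker hf hm hm'
    have hk' : m' 1 = k := by
      rw [h1, Finsupp.add_apply, Finsupp.single_eq_same] at hk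
      push_cast at hk
      omega
    obtain ⟨h2, h3⟩ := ih _ m' hm' hk'
    set L : (𝟙_ C ⟶ M) →ₗ[ℚ] (𝟙_ C ⟶ cokernel f) := Linear.rightComp ℚ _ (cokernel.π f) with hL
    have hker : LinearMap.ker L ≤ Submodule.span ℚ {f} := by
      intro g hg
      obtain ⟨c, hc⟩ := exists_smul hE f hf g hg
      rw [hc]
      exact Submodule.smul_mem _ _ (Submodule.mem_span_singleton_self f)
    have h4 : Module.Finite ℚ (LinearMap.ker L) :=
      Submodule.finiteDimensional_of_le hker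
    have h5 : Module.Finite ℚ ((𝟙_ C ⟶ M) ⧸ LinearMap.ker L) :=
      Module.Finite.equiv L.quotKerEquivRange.symm
    have h6 : Module.Finite ℚ (𝟙_ C ⟶ M) := Module.Finite.of_submodule_quotient (LinearMap.ker L)
    refine ⟨h6, ?_⟩
    have h7 := LinearMap.finrank_range_add_finrank_ker L
    have h8 : Module.finrank ℚ (LinearMap.range L) ≤ k := (Submodule.finrank_le _).trans h3
    have h9 : Module.finrank ℚ (LinearMap.ker L) ≤ 1 :=
      (Submodule.finrank_mono hker).trans (finrank_span_singleton hf).le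
    omega

theorem IsFrob.dim_le (F : IsFrob K fr) (hE : EndUnit C) {M : C} {m : K →₀ ℤ}
    (hm : IsZeta K (fr M) m) : Module.Finite ℚ (𝟙_ C ⟶ M) ∧
      (Module.finrank ℚ (𝟙_ C ⟶ M) : ℤ) ≤ m 1 := by
  obtain ⟨m', hm', h0⟩ := F.zeta M
  have h1 : m = m' := hm.unique hE.1 hm'
  subst h1
  obtain ⟨k, hk⟩ := Int.eq_ofNat_of_zero_le h0
  obtain ⟨h2, h3⟩ := F.dim_aux hE k M m hm hk
  exact ⟨h2, by rw [hk]; exact_mod_cast h3⟩

/-- The numerically trivial morphisms from the unit object. -/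
def numTriv (M : C) : Submodule ℚ (𝟙_ C ⟶ M) where
  carrier := {f | ∀ g : M ⟶ 𝟙_ C, f ≫ g = 0}
  add_mem' := by
    intro a b ha hb g
    rw [Preadditive.add_comp, ha g, hb g, add_zero]
  zero_mem' := by
    intro g
    rw [zero_comp]
  smul_mem' := by
    intro c a ha g
    rw [Linear.smul_comp, ha g, smul_zero]

/-- If the rank of the cycles modulo numerical equivalence is the multiplicity of `1`, then
numerical equivalence is rational equivalence. -/
theorem IsFrob.numTriv_eq_bot (F : IsFrob K fr) (hE : EndUnit C) {M : C} {m : K →₀ ℤ}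
    (hm : IsZeta K (fr M) m)
    (ht : (Module.finrank ℚ ((𝟙_ C ⟶ M) ⧸ numTriv M) : ℤ) = m 1) : numTriv M = ⊥ := by
  obtain ⟨h1, h2⟩ := F.dim_le hE hm
  have h3 := Submodule.finrank_quotient_add_finrank (numTriv M)
  rw [← Submodule.finrank_eq_zero (R := ℚ)]
  omega

/-- The space of morphisms between two objects is finite-dimensional. -/
theorem IsFrob.finite_hom (F : IsFrob K fr) (hE : EndUnit C) (M N : C) :
    Module.Finite ℚ (M ⟶ N) := by
  obtain ⟨m, hm, _⟩ := F.zeta (N ⊗ Mᘁ)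
  obtain ⟨h1, _⟩ := F.dim_le hE hm
  let L : (M ⟶ N) →ₗ[ℚ] (𝟙_ C ⟶ N ⊗ Mᘁ) :=
    { toFun := fun b => η_ M Mᘁ ≫ b ▷ Mᘁ
      map_add' := by
        intro a b
        rw [MonoidalPreadditive.add_whiskerRight, Preadditive.comp_add]
      map_smul' := by
        intro c a
        rw [MonoidalLinear.smul_whiskerRight, Linear.comp_smul]
        rfl }
  refine Module.Finite.of_injective L ?_
  intro a b hab
  have h2 : ∀ b : M ⟶ N, b = (λ_ M).inv ≫ (η_ M Mᘁ ≫ b ▷ Mᘁ) ▷ M ≫ (α_ _ _ _).hom ≫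
      N ◁ ε_ M Mᘁ ≫ (ρ_ N).hom := by
    intro b
    have h3 : (b ▷ Mᘁ) ▷ M ≫ (α_ N Mᘁ M).hom ≫ N ◁ ε_ M Mᘁ =
        (α_ M Mᘁ M).hom ≫ M ◁ ε_ M Mᘁ ≫ b ▷ 𝟙_ C := by
      rw [associator_naturality_left_assoc, ← whisker_exchange]
    rw [comp_whiskerRight, Category.assoc, reassoc_of% h3,
      ExactPairing.evaluation_coevaluation_assoc]
    simp
  rw [h2 a, h2 b]
  change η_ M Mᘁ ≫ a ▷ Mᘁ = η_ M Mᘁ ≫ b ▷ Mᘁ at hab
  rw [hab]

/-- If all traces on `M` vanish, then `M = 0`. -/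
theorem IsFrob.zero_of_tr (F : IsFrob K fr) (hE : EndUnit C) (M : C)
    (h : ∀ b : M ⟶ M, tr M Mᘁ b = 0) : 𝟙 M = 0 := by
  obtain ⟨m, hm, _⟩ := F.zeta (M ⊗ Mᘁ)
  obtain ⟨h1, h2⟩ := F.dim_le hE hm
  have h0 : m = 0 := by
    apply zeta_indep
    intro n
    obtain ⟨r, hr, hr2⟩ := hm n
    have h3 : tr (M ⊗ Mᘁ) (M ⊗ Mᘁ)ᘁ (pw (fr (M ⊗ Mᘁ)) n) = 0 := by
      obtain ⟨ψ, hψ⟩ := tr_tensor M (Mᘁ : C) (Mᘁ : C) ((Mᘁ : C)ᘁ : C) (pw (fr (M ⊗ Mᘁ)) n)
      rw [tr_indep _ _ (((Mᘁ : C)ᘁ : C) ⊗ (Mᘁ : C)), hψ, h]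
    rw [h3] at hr
    have h4 : r = 0 := (smul_eq_zero.1 hr.symm).resolve_right hE.1
    rw [← hr2, h4, Rat.cast_zero]
  rw [h0, Finsupp.zero_apply] at h2
  have h3 : Module.finrank ℚ (𝟙_ C ⟶ M ⊗ Mᘁ) = 0 := by omega
  have h4 : Subsingleton (𝟙_ C ⟶ M ⊗ Mᘁ) := Module.finrank_zero_iff.1 h3
  have h5 : η_ M Mᘁ = 0 := Subsingleton.elim _ _
  have h6 := ExactPairing.evaluation_coevaluation M Mᘁ
  rw [h5] at h6
  have h7 : (0 : 𝟙_ C ⟶ M ⊗ Mᘁ) ▷ M = 0 := (tensorRight M).map_zero _ _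
  rw [h7, zero_comp] at h6
  have h8 : 𝟙 M = (λ_ M).inv ≫ ((λ_ M).hom ≫ (ρ_ M).inv) ≫ (ρ_ M).hom := by simp
  rw [h8, ← h6, zero_comp, comp_zero]

/-- An element of a finite-dimensional algebra is nilpotent or has an idempotent multiple. -/
lemma exists_idem {A : Type*} [Ring A] [Algebra ℚ A] [Module.Finite ℚ A] (a : A) :
    (∃ n : ℕ, a ^ n = 0) ∨ ∃ b : A, b * a ≠ 0 ∧ (b * a) * (b * a) = b * a := by
  have hint : IsIntegral ℚ a := Algebra.IsIntegral.isIntegral a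
  have hp0 : minpoly ℚ a ≠ 0 := minpoly.ne_zero hint
  obtain ⟨g, hg, hg2⟩ := Polynomial.exists_eq_pow_rootMultiplicity_mul_and_not_dvd _ hp0 0
  rw [Polynomial.C_0, sub_zero] at hg hg2
  set k := Polynomial.rootMultiplicity 0 (minpoly ℚ a) with hk
  have hcop : IsCoprime (Polynomial.X ^ (k + 1)) g := by
    apply IsCoprime.pow_left
    exact (Polynomial.irreducible_X.coprime_iff_not_dvd).2 hg2
  obtain ⟨u, w, huw⟩ := hcop
  have h0 : Polynomial.aeval a (Polynomial.X ^ k * g) = 0 := by rw [← hg, minpoly.aeval]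
  have h1 : Polynomial.aeval a (u * Polynomial.X ^ (k + 1)) =
      Polynomial.aeval a (u * Polynomial.X ^ k) * a := by
    rw [pow_succ, ← mul_assoc, map_mul, Polynomial.aeval_X]
  by_cases h2 : Polynomial.aeval a (u * Polynomial.X ^ (k + 1)) = 0
  · left
    refine ⟨k, ?_⟩
    have h3 : Polynomial.X ^ k = Polynomial.X ^ k * (u * Polynomial.X ^ (k + 1)) +
        w * (Polynomial.X ^ k * g) := by
      have : Polynomial.X ^ k * (u * Polynomial.X ^ (k + 1)) + w * (Polynomial.X ^ k * g) =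
        Polynomial.X ^ k * (u * Polynomial.X ^ (k + 1) + w * g) := by ring
      rw [this, huw, mul_one]
    have h4 := congrArg (Polynomial.aeval a) h3
    rw [map_add, map_mul, h2, map_mul, h0, mul_zero, mul_zero, add_zero, map_pow,
      Polynomial.aeval_X] at h4
    exact h4
  · right
    refine ⟨Polynomial.aeval a (u * Polynomial.X ^ k), ?_, ?_⟩
    · rw [← h1]
      exact h2
    · rw [← h1, ← map_mul, ← sub_eq_zero, ← map_sub]
      have h3 : u * Polynomial.X ^ (k + 1) * (u * Polynomial.X ^ (k + 1)) -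
          u * Polynomial.X ^ (k + 1) = -(u * w * Polynomial.X) * (Polynomial.X ^ k * g) := by
        have : u * Polynomial.X ^ (k + 1) = 1 - w * g := by rw [← huw]; ring
        calc u * Polynomial.X ^ (k + 1) * (u * Polynomial.X ^ (k + 1)) -
            u * Polynomial.X ^ (k + 1) =
            u * Polynomial.X ^ (k + 1) * (u * Polynomial.X ^ (k + 1) - 1) := by ring
          _ = u * Polynomial.X ^ (k + 1) * (-(w * g)) := by rw [this]; ring
          _ = _ := by ring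
      rw [h3, map_mul, h0, mul_zero]

lemma pw_eq {M : C} (φ : M ⟶ M) (n : ℕ) : pw φ n = ((End.of φ) ^ n : End M) := by
  induction n with
  | zero => rfl
  | succ n ih => rw [pw, ih, pow_succ]; rfl

/-- Numerically trivial endomorphisms are nilpotent. -/
theorem IsFrob.nilpotent (F : IsFrob K fr) (hE : EndUnit C) {M : C} (φ : M ⟶ M)
    (hφ : ∀ ψ : M ⟶ M, tr M Mᘁ (φ ≫ ψ) = 0) : ∃ n, pw φ n = 0 := by
  have hfin : Module.Finite ℚ (End M) := F.finite_hom hE M M
  rcases exists_idem (A := End M) (End.of φ) with ⟨n, hn⟩ | ⟨b, hb, hb2⟩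
  · exact ⟨n, by rw [pw_eq]; exact hn⟩
  exfalso
  apply hb
  -- `e = φ ≫ b` is idempotent
  have he : (φ ≫ b) ≫ (φ ≫ b) = φ ≫ b := hb2
  obtain ⟨I, i, r, h1, h2⟩ := IsIdempotentComplete.idempotents_split M (φ ≫ b) he
  have h3 : 𝟙 I = 0 := by
    apply F.zero_of_tr hE
    intro ψ
    have h4 : ψ = i ≫ (r ≫ ψ) := by rw [← Category.assoc, h1, Category.id_comp]
    rw [h4, tr_comm (Y' := (Mᘁ : C))]
    have h5 : (r ≫ ψ) ≫ i = (φ ≫ b) ≫ (r ≫ ψ ≫ i) := by
      rw [← h2]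
      simp only [Category.assoc]
      rw [← Category.assoc i r, h1, Category.id_comp]
    rw [h5, Category.assoc]
    exact hφ _
  change φ ≫ b = 0
  rw [← h2, ← Category.comp_id r, h3, comp_zero, zero_comp]

/-- The external product of nonzero morphisms from the unit object is not zero. -/
theorem tensor_ne_zero (hE : EndUnit C) {M N : C} (f : 𝟙_ C ⟶ M) (g : 𝟙_ C ⟶ N) (hf : f ≠ 0)
    (hg : g ≠ 0) : f ⊗ₘ g ≠ 0 := by
  have h1 := mono_of_ne_zero hE f hf
  have h2 := mono_of_ne_zero hE g hg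
  have h3 : Mono (f ⊗ₘ g) := by
    rw [MonoidalCategory.tensorHom_def]
    have h4 := mono_whiskerRight f (𝟙_ C)
    have h5 := mono_whiskerLeft g M
    exact mono_comp _ _
  intro h0
  have h4 : 𝟙 (𝟙_ C ⊗ 𝟙_ C) = 0 := by
    rw [← cancel_mono (f ⊗ₘ g), h0, comp_zero, comp_zero]
  apply hE.1
  have h5 : 𝟙 (𝟙_ C) = (λ_ (𝟙_ C)).inv ≫ 𝟙 (𝟙_ C ⊗ 𝟙_ C) ≫ (λ_ (𝟙_ C)).hom := by simp
  rw [h5, h4, zero_comp, comp_zero]

end Pool.Agent.NH36.Ab
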