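import Pool.Agent.NH36.Ab.Tr

/-!
# Multiplicativity of the trace
-/

set_option autoImplicit false
set_option linter.unusedSectionVars false

open CategoryTheory MonoidalCategory BraidedCategory

universe v u

namespace Pool.Agent.NH36.Ab

variable {C : Type u} [Category.{v} C] [MonoidalCategory C] [SymmetricCategory C]

/-- Sliding a strand over an evaluation, on the other side. -/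
lemma slide (X Y U : C) (t : X ⊗ Y ⟶ 𝟙_ C) :
    X ◁ (β_ U Y).hom ≫ (α_ X Y U).inv ≫ t ▷ U ≫ (λ_ U).hom =
      (α_ X U Y).inv ≫ (β_ X U).hom ▷ Y ≫ (α_ U X Y).hom ≫ U ◁ t ≫ (ρ_ U).hom := by
  have h1 : (β_ U (X ⊗ Y)).hom ≫ t ▷ U = U ◁ t ≫ (β_ U (𝟙_ C)).hom :=
    (braiding_naturality_right U t).symm
  have h2 : U ◁ t ≫ (ρ_ U).hom = (β_ U (X ⊗ Y)).hom ≫ t ▷ U ≫ (λ_ U).hom := by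
    rw [reassoc_of% h1]
    simp
  rw [h2, braiding_tensor_right_hom]
  simp only [Category.assoc, Iso.hom_inv_id_assoc]
  have h3 : (β_ X U).hom ▷ Y ≫ (β_ U X).hom ▷ Y = 𝟙 _ := by
    rw [← comp_whiskerRight, SymmetricCategory.symmetry, id_whiskerRight]
  rw [reassoc_of% h3]
  simp

/-- The evaluation of a tensor product is the nested evaluation. -/
lemma tt_tensor (X Y U V : C) [ExactPairing X Y] [ExactPairing U V] :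
    tt (X ⊗ U) (V ⊗ Y) = 𝟙 _ ⊗≫ X ◁ (tt U V ▷ Y) ⊗≫ tt X Y := by
  calc tt (X ⊗ U) (V ⊗ Y)
    _ = 𝟙 _ ⊗≫ X ◁ ((β_ U V).hom ▷ Y) ⊗≫ X ◁ (V ◁ (β_ U Y).hom) ⊗≫ ((β_ X V).hom ▷ Y) ▷ U ⊗≫
        V ◁ ((β_ X Y).hom ▷ U) ⊗≫ V ◁ (ε_ X Y ▷ U) ⊗≫ ε_ U V := by
      rw [tt, ExactPairing.tensor_evaluation, braiding_tensor_left_hom, braiding_tensor_right_hom,
        braiding_tensor_right_hom]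
      monoidal
    _ = 𝟙 _ ⊗≫ X ◁ ((β_ U V).hom ▷ Y) ⊗≫ ((X ⊗ V) ◁ (β_ U Y).hom ≫ (β_ X V).hom ▷ (Y ⊗ U)) ⊗≫
        V ◁ (((β_ X Y).hom ≫ ε_ X Y) ▷ U) ⊗≫ ε_ U V := by monoidal
    _ = 𝟙 _ ⊗≫ X ◁ ((β_ U V).hom ▷ Y) ⊗≫ ((β_ X V).hom ▷ (U ⊗ Y) ≫ (V ⊗ X) ◁ (β_ U Y).hom) ⊗≫
        V ◁ (tt X Y ▷ U) ⊗≫ ε_ U V := by rw [whisker_exchange, tt]
    _ = 𝟙 _ ⊗≫ X ◁ ((β_ U V).hom ▷ Y) ⊗≫ (β_ X V).hom ▷ (U ⊗ Y) ⊗≫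
        V ◁ (X ◁ (β_ U Y).hom ≫ (α_ X Y U).inv ≫ tt X Y ▷ U ≫ (λ_ U).hom) ⊗≫ ε_ U V := by monoidal
    _ = 𝟙 _ ⊗≫ X ◁ ((β_ U V).hom ▷ Y) ⊗≫ (β_ X V).hom ▷ (U ⊗ Y) ⊗≫
        V ◁ ((α_ X U Y).inv ≫ (β_ X U).hom ▷ Y ≫ (α_ U X Y).hom ≫ U ◁ tt X Y ≫ (ρ_ U).hom) ⊗≫
        ε_ U V := by rw [slide]
    _ = 𝟙 _ ⊗≫ X ◁ ((β_ U V).hom ▷ Y) ⊗≫ ((β_ X V).hom ▷ U ⊗≫ V ◁ (β_ X U).hom) ▷ Y ⊗≫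
        ((V ⊗ U) ◁ tt X Y ≫ ε_ U V ▷ 𝟙_ C) ⊗≫ 𝟙 _ := by monoidal
    _ = 𝟙 _ ⊗≫ X ◁ ((β_ U V).hom ▷ Y) ⊗≫ ((β_ X V).hom ▷ U ⊗≫ V ◁ (β_ X U).hom) ▷ Y ⊗≫
        (ε_ U V ▷ (X ⊗ Y) ≫ 𝟙_ C ◁ tt X Y) ⊗≫ 𝟙 _ := by rw [whisker_exchange]
    _ = 𝟙 _ ⊗≫ X ◁ ((β_ U V).hom ▷ Y) ⊗≫ ((β_ X (V ⊗ U)).hom ≫ ε_ U V ▷ X) ▷ Y ⊗≫ tt X Y := by
      rw [braiding_tensor_right_hom]
      monoidal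
    _ = 𝟙 _ ⊗≫ X ◁ ((β_ U V).hom ▷ Y) ⊗≫ (X ◁ ε_ U V ≫ (β_ X (𝟙_ C)).hom) ▷ Y ⊗≫ tt X Y := by
      rw [braiding_naturality_right]
    _ = 𝟙 _ ⊗≫ X ◁ (tt U V ▷ Y) ⊗≫ tt X Y := by
      rw [show tt U V = (β_ U V).hom ≫ ε_ U V from rfl, braiding_tensorUnit_right]
      monoidal

lemma scalar_swap (X : C) (s : 𝟙_ C ⟶ 𝟙_ C) :
    X ◁ s = (ρ_ X).hom ≫ (λ_ X).inv ≫ s ▷ X ≫ (λ_ X).hom ≫ (ρ_ X).inv := by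
  have h1 : X ◁ s ≫ (β_ X (𝟙_ C)).hom = (β_ X (𝟙_ C)).hom ≫ s ▷ X :=
    braiding_naturality_right X s
  rw [braiding_tensorUnit_right] at h1
  rw [← cancel_mono ((ρ_ X).hom ≫ (λ_ X).inv), h1]
  simp

/-- The trace of a tensor product. -/
lemma tr_mul (X Y U V : C) [ExactPairing X Y] [ExactPairing U V] (a : X ⟶ X) (b : U ⟶ U) :
    tr (X ⊗ U) (V ⊗ Y) (a ⊗ₘ b) = tr X Y a ≫ tr U V b := by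
  calc tr (X ⊗ U) (V ⊗ Y) (a ⊗ₘ b)
    _ = η_ X Y ⊗≫ (X ◁ η_ U V ≫ a ▷ (U ⊗ V)) ▷ Y ⊗≫ X ◁ ((b ▷ V) ▷ Y) ⊗≫
        X ◁ (tt U V ▷ Y) ⊗≫ tt X Y := by
      rw [tr, tt_tensor, ExactPairing.tensor_coevaluation,
        MonoidalCategory.tensorHom_def]
      monoidal
    _ = η_ X Y ⊗≫ (a ▷ 𝟙_ C ≫ X ◁ η_ U V) ▷ Y ⊗≫ X ◁ ((b ▷ V) ▷ Y) ⊗≫
        X ◁ (tt U V ▷ Y) ⊗≫ tt X Y := by rw [whisker_exchange]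
    _ = η_ X Y ⊗≫ a ▷ Y ⊗≫ (X ◁ tr U V b) ▷ Y ⊗≫ tt X Y := by
      rw [tr]
      monoidal
    _ = η_ X Y ⊗≫ a ▷ Y ⊗≫ (tr U V b ▷ (X ⊗ Y) ≫ 𝟙_ C ◁ tt X Y) ⊗≫ 𝟙 _ := by
      rw [scalar_swap]
      monoidal
    _ = η_ X Y ⊗≫ a ▷ Y ⊗≫ (𝟙_ C ◁ tt X Y ≫ tr U V b ▷ 𝟙_ C) ⊗≫ 𝟙 _ := by
      rw [whisker_exchange]
    _ = tr X Y a ≫ tr U V b := by
      rw [show tr X Y a = η_ X Y ≫ a ▷ Y ≫ tt X Y from rfl]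
      monoidal

end Pool.Agent.NH36.Ab
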