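import Pool.Agent.NH36.Ab.Tr

/-!
# Morphisms from the unit object in an abelian rigid symmetric category
-/

set_option autoImplicit false
set_option linter.unusedSectionVars false

open CategoryTheory MonoidalCategory BraidedCategory Limits

universe v u

namespace Pool.Agent.NH36.Ab

variable {C : Type u} [Category.{v} C] [Abelian C] [Linear ℚ C] [MonoidalCategory C]
  [SymmetricCategory C] [MonoidalPreadditive C] [MonoidalLinear ℚ C] [RightRigidCategory C]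

lemma mono_whiskerRight {K L : C} (i : K ⟶ L) [Mono i] (X : C) : Mono (i ▷ X) := by
  let _ : ExactPairing Xᘁ X := exactPairing_swap X Xᘁ
  have adj : tensorRight Xᘁ ⊣ tensorRight X := tensorRightAdjunction Xᘁ X
  have := Functor.preservesMonomorphisms_of_adjunction adj
  exact inferInstanceAs (Mono ((tensorRight X).map i))

lemma mono_whiskerLeft {K L : C} (i : K ⟶ L) [Mono i] (X : C) : Mono (X ◁ i) := by
  have adj : tensorLeft Xᘁ ⊣ tensorLeft X := tensorLeftAdjunction X Xᘁ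
  have := Functor.preservesMonomorphisms_of_adjunction adj
  exact inferInstanceAs (Mono ((tensorLeft X).map i))

/-- The endomorphisms of the unit object are the rational numbers. -/
def EndUnit (C : Type u) [Category.{v} C] [Preadditive C] [Linear ℚ C] [MonoidalCategory C] :
    Prop := 𝟙 (𝟙_ C) ≠ 0 ∧ ∀ x : 𝟙_ C ⟶ 𝟙_ C, ∃ c : ℚ, x = c • 𝟙 (𝟙_ C)

/-- A nonzero morphism from the unit object is a monomorphism. -/
theorem mono_of_ne_zero (hE : EndUnit C) {M : C} (f : 𝟙_ C ⟶ M) (hf : f ≠ 0) : Mono f := by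
  apply Preadditive.mono_of_kernel_zero
  by_contra hK
  apply hf
  obtain ⟨K, i, him, hi0, hi⟩ : ∃ (K : C) (i : K ⟶ 𝟙_ C), Mono i ∧ i ≫ f = 0 ∧ i ≠ 0 :=
    ⟨kernel f, kernel.ι f, inferInstance, kernel.condition f, hK⟩
  have hid : 𝟙 K ≠ 0 := fun h => hi (by rw [← Category.id_comp i, h, zero_comp])
  -- the braiding of `K` is trivial
  have hm : Mono (i ⊗ₘ i) := by
    rw [MonoidalCategory.tensorHom_def]
    have h1 := mono_whiskerRight i K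
    have h2 := mono_whiskerLeft i (𝟙_ C)
    exact mono_comp _ _
  have hβ : (β_ K K).hom = 𝟙 _ := by
    rw [← cancel_mono (i ⊗ₘ i), ← BraidedCategory.braiding_naturality, Category.id_comp]
    have h1 : (β_ (𝟙_ C) (𝟙_ C)).hom = 𝟙 _ := by
      rw [braiding_tensorUnit_left, unitors_equal]
      simp
    rw [h1, Category.comp_id]
  -- the trace of its identity is one
  obtain ⟨c, hc⟩ := hE.2 (tr K Kᘁ (𝟙 K))
  have h1 := tr_id_of_braid K Kᘁ hβ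
  rw [hc, MonoidalLinear.smul_whiskerRight, id_whiskerRight] at h1
  have hc1 : c ≠ 0 := by
    rintro rfl
    rw [zero_smul] at h1
    apply hid
    have h2 : 𝟙 K = (λ_ K).inv ≫ 𝟙 (𝟙_ C ⊗ K) ≫ (λ_ K).hom := by simp
    rw [h2, ← h1, zero_comp, comp_zero]
  -- `K ⊗ f = 0`
  have h2 : K ◁ f = 0 := by
    have h3 := mono_whiskerRight i M
    rw [← cancel_mono (i ▷ M), whisker_exchange, zero_comp]
    rw [id_whiskerLeft]
    have h4 : i ▷ 𝟙_ C = (ρ_ K).hom ≫ i ≫ (ρ_ (𝟙_ C)).inv := by simp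
    rw [h4]
    simp only [Category.assoc]
    have h5 : (ρ_ (𝟙_ C)).inv ≫ (λ_ (𝟙_ C)).hom = 𝟙 _ := by
      rw [unitors_equal]
      simp
    rw [reassoc_of% h5, reassoc_of% hi0, zero_comp, comp_zero]
  have h3 : tr K Kᘁ (𝟙 K) ≫ f = 0 := by
    have h4 : ε_ K Kᘁ ≫ f = (ρ_ (Kᘁ ⊗ K)).inv ≫ (α_ _ _ _).hom ≫ Kᘁ ◁ (K ◁ f) ≫
        (α_ _ _ _).inv ≫ ε_ K Kᘁ ▷ M ≫ (λ_ M).hom := by
      have h5 : (Kᘁ ⊗ K) ◁ f ≫ ε_ K Kᘁ ▷ M = ε_ K Kᘁ ▷ 𝟙_ C ≫ 𝟙_ C ◁ f := whisker_exchange _ _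
      have h6 : (α_ Kᘁ K (𝟙_ C)).hom ≫ Kᘁ ◁ (K ◁ f) ≫ (α_ _ _ _).inv = (Kᘁ ⊗ K) ◁ f := by simp
      rw [reassoc_of% h6, reassoc_of% h5]
      have h7 : (ρ_ (𝟙_ C)).inv ≫ (λ_ (𝟙_ C)).hom = 𝟙 _ := by
        rw [unitors_equal]
        simp
      simp [reassoc_of% h7]
    rw [tr, tt, Category.assoc, Category.assoc, Category.assoc, h4, h2]
    simp
  rw [hc, Linear.smul_comp, Category.id_comp] at h3
  exact (smul_eq_zero.1 h3).resolve_left hc1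

/-- The cokernel of a nonzero `f : 𝟙 ⟶ M` kills only the multiples of `f`. -/
theorem exists_smul (hE : EndUnit C) {M : C} (f : 𝟙_ C ⟶ M) (hf : f ≠ 0) (g : 𝟙_ C ⟶ M)
    (hg : g ≫ cokernel.π f = 0) : ∃ c : ℚ, g = c • f := by
  have hm := mono_of_ne_zero hE f hf
  obtain ⟨c, hc⟩ := hE.2 (Abelian.monoLift f g hg)
  refine ⟨c, ?_⟩
  rw [← Abelian.monoLift_comp f g hg, hc, Linear.smul_comp, Category.id_comp]

lemma sub_whisker {X Y : C} (s t : X ⟶ Y) (Z : C) : (s - t) ▷ Z = s ▷ Z - t ▷ Z :=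
  (tensorRight Z).map_sub

lemma ptr_sub (X Y : C) [ExactPairing X Y] {M : C} (s t : X ⟶ M ⊗ X) :
    ptr X Y (s - t) = ptr X Y s - ptr X Y t := by
  simp only [ptr, sub_whisker, Preadditive.sub_comp, Preadditive.comp_sub]

/-- Additivity of the trace. -/
theorem tr_add {M : C} (f : 𝟙_ C ⟶ M) (b : M ⟶ M) (c : cokernel f ⟶ cokernel f)
    (hc : cokernel.π f ≫ c = b ≫ cokernel.π f) :
    tr M Mᘁ b ≫ f = f ≫ b + tr (cokernel f) (cokernel f)ᘁ c ≫ f := by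
  set p := cokernel.π f with hp
  have hfp : f ≫ p = 0 := cokernel.condition f
  set Ψ : M ⟶ M ⊗ M := (λ_ M).inv ≫ f ▷ M - (ρ_ M).inv ≫ M ◁ f with hΨ
  have h0 : f ≫ Ψ = 0 := by
    have h1 : f ≫ (λ_ M).inv = (λ_ (𝟙_ C)).inv ≫ 𝟙_ C ◁ f := by simp
    have h2 : f ≫ (ρ_ M).inv = (ρ_ (𝟙_ C)).inv ≫ f ▷ 𝟙_ C := by simp
    rw [hΨ, Preadditive.comp_sub, reassoc_of% h1, reassoc_of% h2, whisker_exchange,
      unitors_inv_equal, sub_self]
  set E : cokernel f ⟶ M ⊗ M := cokernel.desc f Ψ h0 with hEd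
  have hE : p ≫ E = Ψ := cokernel.π_desc f Ψ h0
  have hE2 : E ≫ M ◁ p = (λ_ (cokernel f)).inv ≫ f ▷ (cokernel f) := by
    rw [← cancel_epi p, reassoc_of% hE, hΨ, Preadditive.sub_comp, Category.assoc, Category.assoc,
      ← MonoidalCategory.whiskerLeft_comp, hfp]
    have h1 : p ≫ (λ_ (cokernel f)).inv = (λ_ M).inv ≫ 𝟙_ C ◁ p := by simp
    rw [reassoc_of% h1, whisker_exchange]
    simp
  have h3 : ptr M Mᘁ (Ψ ≫ M ◁ b) = tr (cokernel f) (cokernel f)ᘁ c ≫ f := by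
    rw [← hE, Category.assoc, ptr_comm (Y' := (cokernel f)ᘁ), ← ptr_left]
    congr 1
    rw [Category.assoc, ← MonoidalCategory.whiskerLeft_comp, ← hc,
      MonoidalCategory.whiskerLeft_comp, reassoc_of% hE2]
  have h4 : ptr M Mᘁ (Ψ ≫ M ◁ b) = tr M Mᘁ b ≫ f - f ≫ b := by
    have h5 : ptr M Mᘁ ((λ_ M).inv ≫ f ▷ M ≫ M ◁ b) = tr M Mᘁ b ≫ f := ptr_left _ _ _ _
    have h6 : ptr M Mᘁ ((ρ_ M).inv ≫ M ◁ (f ≫ b)) = f ≫ b := ptr_right _ _ _
    have h7 : Ψ ≫ M ◁ b = (λ_ M).inv ≫ f ▷ M ≫ M ◁ b - (ρ_ M).inv ≫ M ◁ (f ≫ b) := by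
      rw [hΨ, Preadditive.sub_comp]
      simp
    rw [h7, ptr_sub, h5, h6]
  rw [h4] at h3
  rw [← h3]
  abel

end Pool.Agent.NH36.Ab
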