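import Pool.Agent.NH36.Ab.Dim
import Pool.Agent.NH36.Ab.Mul

/-!
# The case of equality
-/

set_option autoImplicit false
set_option linter.unusedSectionVars false

open CategoryTheory MonoidalCategory BraidedCategory Limits Polynomial

universe v u w

namespace Pool.Agent.NH36.Ab

section zeta

variable {K : Type w} [Field K] [CharZero K]

lemma zeta_indep' (d : K →₀ K) (h : ∀ n : ℕ, d.sum (fun a c => c * a ^ n) = 0) : d = 0 := by
  have h1 : LinearIndependent K (fun a : K => (powersHom K a : Multiplicative ℕ → K)) :=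
    (linearIndependent_monoidHom (Multiplicative ℕ) K).comp (fun a : K => powersHom K a)
      (powersHom K).injective
  rw [linearIndependent_iff'] at h1
  ext a
  by_cases ha : a ∈ d.support
  · have h2 := h1 d.support (fun a => d a) ?_ a ha
    · exact h2
    · funext n
      have h3 := h (Multiplicative.toAdd n)
      rw [Finsupp.sum] at h3
      simpa [Finset.sum_apply] using h3
  · rwa [Finsupp.notMem_support_iff] at ha

end zeta

variable {C : Type u} [Category.{v} C] [Abelian C] [Linear ℚ C] [MonoidalCategory C]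
  [SymmetricCategory C] [MonoidalPreadditive C] [MonoidalLinear ℚ C] [RightRigidCategory C]

/-- A natural monoidal family of endomorphisms which satisfies the trace formula. -/
structure IsMonFrob (K : Type w) [Field K] [CharZero K] (fr : ∀ M : C, M ⟶ M) : Prop
    extends IsFrob K fr where
  ten : ∀ M N : C, fr (M ⊗ N) = fr M ⊗ₘ fr N

variable {K : Type w} [Field K] [CharZero K] {fr : ∀ M : C, M ⟶ M}

lemma pw_tensor {M N : C} (a : M ⟶ M) (b : N ⟶ N) (n : ℕ) :
    pw (a ⊗ₘ b) n = pw a n ⊗ₘ pw b n := by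
  induction n with
  | zero => simp [pw]
  | succ n ih => rw [pw, ih, pw, pw, MonoidalCategory.tensorHom_comp_tensorHom]

/-- If the traces of all powers of the Frobenius vanish, then `M = 0`. -/
theorem IsMonFrob.zero_of_tr (F : IsMonFrob K fr) (hE : EndUnit C) (M : C)
    (h : ∀ n, tr M Mᘁ (pw (fr M) n) = 0) : 𝟙 M = 0 := by
  obtain ⟨m, hm, _⟩ := F.zeta (M ⊗ Mᘁ)
  obtain ⟨h1, h2⟩ := F.toIsFrob.dim_le hE hm
  have h0 : m = 0 := by
    apply zeta_indep
    intro n
    obtain ⟨r, hr, hr2⟩ := hm n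
    have h3 : tr (M ⊗ Mᘁ) (M ⊗ Mᘁ)ᘁ (pw (fr (M ⊗ Mᘁ)) n) = 0 := by
      rw [tr_indep _ _ (((Mᘁ : C)ᘁ : C) ⊗ (Mᘁ : C)), F.ten, pw_tensor, tr_mul, h, Limits.zero_comp]
    rw [h3] at hr
    have h4 : r = 0 := (smul_eq_zero.1 hr.symm).resolve_right hE.1
    rw [← hr2, h4, Rat.cast_zero]
  rw [h0, Finsupp.zero_apply] at h2
  have h3 : Module.finrank ℚ (𝟙_ C ⟶ M ⊗ Mᘁ) = 0 := by omega
  have h4 : Subsingleton (𝟙_ C ⟶ M ⊗ Mᘁ) := Module.finrank_zero_iff.1 h3
  have h5 : η_ M Mᘁ = 0 := Subsingleton.elim _ _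
  have h6 := ExactPairing.evaluation_coevaluation M Mᘁ
  rw [h5] at h6
  have h7 : (0 : 𝟙_ C ⟶ M ⊗ Mᘁ) ▷ M = 0 := (tensorRight M).map_zero _ _
  rw [h7, Limits.zero_comp] at h6
  have h8 : 𝟙 M = (λ_ M).inv ≫ ((λ_ M).hom ≫ (ρ_ M).inv) ≫ (ρ_ M).hom := by simp
  rw [h8, ← h6, Limits.zero_comp, Limits.comp_zero]

lemma tr_add' {X Y : C} [ExactPairing X Y] (a b : X ⟶ X) :
    tr X Y (a + b) = tr X Y a + tr X Y b := by
  simp only [tr, MonoidalPreadditive.add_whiskerRight, Preadditive.add_comp, Preadditive.comp_add]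

lemma tr_smul {X Y : C} [ExactPairing X Y] (c : ℚ) (a : X ⟶ X) :
    tr X Y (c • a) = c • tr X Y a := by
  simp only [tr, MonoidalLinear.smul_whiskerRight, Linear.smul_comp, Linear.comp_smul]

/-- The trace formula for polynomials in the Frobenius. -/
lemma IsZeta.poly {M : C} {φ : M ⟶ M} {m : K →₀ ℤ} (hm : IsZeta K φ m) (p : ℚ[X]) :
    ∃ r : ℚ, tr M Mᘁ (aeval (End.of φ) p : End M) = r • 𝟙 (𝟙_ C) ∧
      (r : K) = m.sum fun a c => (c : K) * eval₂ (algebraMap ℚ K) a p := by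
  induction p using Polynomial.induction_on' with
  | add p q hp hq =>
    obtain ⟨r, hr, hr2⟩ := hp
    obtain ⟨s, hs, hs2⟩ := hq
    refine ⟨r + s, ?_, ?_⟩
    · rw [map_add]
      change tr M Mᘁ ((aeval (End.of φ) p : M ⟶ M) + (aeval (End.of φ) q : M ⟶ M)) = _
      rw [tr_add', hr, hs, add_smul]
    · push_cast
      rw [hr2, hs2, ← Finsupp.sum_add]
      refine Finsupp.sum_congr fun a _ => ?_
      rw [eval₂_add, mul_add]
  | monomial n c =>
    obtain ⟨r, hr, hr2⟩ := hm n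
    refine ⟨c * r, ?_, ?_⟩
    · rw [aeval_monomial, ← Algebra.smul_def, ← pw_eq]
      change tr M Mᘁ (c • pw φ n) = _
      rw [tr_smul, hr, smul_smul]
    · push_cast
      rw [hr2, Finsupp.mul_sum]
      refine Finsupp.sum_congr fun a _ => ?_
      rw [eval₂_monomial]
      change (c : K) * _ = _ * ((algebraMap ℚ K c) * _)
      rw [eq_ratCast (algebraMap ℚ K) c]
      ring

/-- If the Frobenius is unipotent, then `1` is the only eigenvalue. -/
lemma IsZeta.unip {M : C} {φ : M ⟶ M} {m : K →₀ ℤ} (h1 : 𝟙 (𝟙_ C) ≠ 0) (hm : IsZeta K φ m) (N : ℕ)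
    (hN : ((End.of φ - 1) ^ N : End M) = 0) : m = Finsupp.single 1 (m 1) := by
  have h3 : (∀ a : K, (m a : K) * (a - 1) ^ N = 0) := by
    set d : K →₀ K := Finsupp.onFinset m.support (fun a => (m a : K) * (a - 1) ^ N) (by
      intro a ha
      rw [Finsupp.mem_support_iff]
      intro h0
      rw [h0] at ha
      simp at ha) with hd
    have h4 : d = 0 := by
      apply zeta_indep'
      intro n
      obtain ⟨r, hr, hr2⟩ := hm.poly (X ^ n * (X - 1) ^ N)
      rw [map_mul, map_pow, map_pow, map_sub, aeval_X, map_one, hN, mul_zero] at hr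
      have h5 : r = 0 := by
        have h6 : tr M Mᘁ (0 : M ⟶ M) = 0 := by
          rw [← zero_smul ℚ (0 : M ⟶ M), tr_smul, zero_smul]
        change tr M Mᘁ (0 : M ⟶ M) = _ at hr
        rw [h6] at hr
        exact (smul_eq_zero.1 hr.symm).resolve_right h1
      rw [h5, Rat.cast_zero] at hr2
      rw [hd, Finsupp.onFinset_sum _ (fun a => by simp), hr2, Finsupp.sum]
      refine Finset.sum_congr rfl fun a _ => ?_
      simp only [eval₂_mul, eval₂_pow, eval₂_X, eval₂_sub, eval₂_one]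
      ring
    intro a
    have := DFunLike.congr_fun h4 a
    simpa [hd] using this
  ext a
  by_cases ha : a = 1
  · rw [ha, Finsupp.single_eq_same]
  · rw [Finsupp.single_eq_of_ne ha]
    have h4 := h3 a
    have h5 : (a - 1) ^ N ≠ 0 := pow_ne_zero _ (sub_ne_zero.2 ha)
    exact_mod_cast (mul_eq_zero.1 h4).resolve_right h5

/-- Splitting of an endomorphism of a finite-dimensional algebra into a nilpotent part and an
invertible part. -/
lemma exists_fitting {A : Type*} [Ring A] [Algebra ℚ A] [Module.Finite ℚ A] (a : A) :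
    ∃ (e b : A) (k : ℕ), e * e = e ∧ a ^ k * e = 0 ∧ (1 - e) = b * a ∧ a * e = e * a := by
  have hint : IsIntegral ℚ a := Algebra.IsIntegral.isIntegral a
  have hp0 : minpoly ℚ a ≠ 0 := minpoly.ne_zero hint
  obtain ⟨g, hg, hg2⟩ := Polynomial.exists_eq_pow_rootMultiplicity_mul_and_not_dvd _ hp0 0
  rw [Polynomial.C_0, sub_zero] at hg hg2
  set k := Polynomial.rootMultiplicity 0 (minpoly ℚ a) with hk
  have hcop : IsCoprime (Polynomial.X ^ (k + 1)) g := by
    apply IsCoprime.pow_left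
    exact (Polynomial.irreducible_X.coprime_iff_not_dvd).2 hg2
  obtain ⟨u, w, huw⟩ := hcop
  have h0 : Polynomial.aeval a (Polynomial.X ^ k * g) = 0 := by rw [← hg, minpoly.aeval]
  refine ⟨Polynomial.aeval a (w * g), Polynomial.aeval a (u * Polynomial.X ^ k), k, ?_, ?_, ?_, ?_⟩
  · rw [← map_mul, ← sub_eq_zero, ← map_sub]
    have h3 : w * g * (w * g) - w * g = -(w * u * Polynomial.X) * (Polynomial.X ^ k * g) := by
      have : w * g = 1 - u * Polynomial.X ^ (k + 1) := by rw [← huw]; ring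
      calc w * g * (w * g) - w * g = w * g * (w * g - 1) := by ring
        _ = w * g * (-(u * Polynomial.X ^ (k + 1))) := by rw [this]; ring
        _ = _ := by ring
    rw [h3, map_mul, h0, mul_zero]
  · have h3 : Polynomial.X ^ k * (w * g) = w * (Polynomial.X ^ k * g) := by ring
    have h4 := congrArg (Polynomial.aeval a) h3
    rw [map_mul (aeval a) (X ^ k) (w * g), map_mul (aeval a) w (X ^ k * g), h0, mul_zero, map_pow,
      Polynomial.aeval_X] at h4
    exact h4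
  · have h3 : (1 : ℚ[X]) - w * g = (u * Polynomial.X ^ k) * Polynomial.X := by rw [← huw]; ring
    have h4 := congrArg (Polynomial.aeval a) h3
    rw [map_sub, map_one, map_mul (aeval a) (u * X ^ k) X, Polynomial.aeval_X] at h4
    exact h4
  · have h3 : Polynomial.X * (w * g) = (w * g) * Polynomial.X := by ring
    have h4 := congrArg (Polynomial.aeval a) h3
    rw [map_mul (aeval a) X (w * g), map_mul (aeval a) (w * g) X, Polynomial.aeval_X] at h4
    exact h4

/-- Objects `A` and `B` with `M = A ⊕ B`. -/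
structure Dec (M A B : C) where
  i : A ⟶ M
  r : M ⟶ A
  i' : B ⟶ M
  r' : M ⟶ B
  ir : i ≫ r = 𝟙 A
  ir' : i' ≫ r' = 𝟙 B
  sum : r ≫ i + r' ≫ i' = 𝟙 M

lemma Dec.zeta (F : IsFrob K fr) (h1 : 𝟙 (𝟙_ C) ≠ 0) {M A B : C} (D : Dec M A B) {m a b : K →₀ ℤ}
    (hm : IsZeta K (fr M) m) (ha : IsZeta K (fr A) a) (hb : IsZeta K (fr B) b) : m = a + b := by
  rw [← sub_eq_zero]
  apply zeta_indep
  intro n
  obtain ⟨r, hr, hr2⟩ := hm n
  obtain ⟨s, hs, hs2⟩ := ha n
  obtain ⟨t, ht, ht2⟩ := hb n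
  have h2 : tr M Mᘁ (pw (fr M) n) = tr A Aᘁ (pw (fr A) n) + tr B Bᘁ (pw (fr B) n) := by
    have h3 : pw (fr M) n = (pw (fr M) n ≫ D.r) ≫ D.i + (pw (fr M) n ≫ D.r') ≫ D.i' := by
      rw [Category.assoc, Category.assoc, ← Preadditive.comp_add, D.sum, Category.comp_id]
    rw [h3, tr_add', tr_comm (Y' := (Aᘁ : C)), tr_comm (X' := B) (Y' := (Bᘁ : C)),
      ← F.nat_pw, ← F.nat_pw, ← Category.assoc, ← Category.assoc, D.ir, D.ir', Category.id_comp,
      Category.id_comp]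
  rw [hr, hs, ht, ← add_smul, ← sub_eq_zero, ← sub_smul] at h2
  have h3 : r = s + t := sub_eq_zero.1 ((smul_eq_zero.1 h2).resolve_right h1)
  rw [Finsupp.sum_sub_index (by intros; push_cast; ring),
    Finsupp.sum_add_index' (by simp) (by intros; push_cast; ring), ← hr2, ← hs2, ← ht2, h3]
  push_cast
  ring

lemma exists_fitting_hom {M : C} (h : Module.Finite ℚ (M ⟶ M)) (φ : M ⟶ M) :
    ∃ (e b : M ⟶ M) (k : ℕ), e ≫ e = e ∧ e ≫ pw φ k = 0 ∧ 𝟙 M - e = φ ≫ b := by
  have hfin : Module.Finite ℚ (End M) := h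
  obtain ⟨e, b, k, he, hk, hb, hc⟩ := exists_fitting (A := End M) (End.of φ)
  refine ⟨e, b, k, he, ?_, hb⟩
  rw [pw_eq]
  exact hk

/-- The Frobenius minus one. -/
def fr1 (fr : ∀ M : C, M ⟶ M) (M : C) : M ⟶ M := fr M - 𝟙 M

lemma IsFrob.nat1 (F : IsFrob K fr) {M N : C} (g : M ⟶ N) : g ≫ fr1 fr N = fr1 fr M ≫ g := by
  rw [fr1, fr1, Preadditive.comp_sub, Preadditive.sub_comp, F.nat, Category.comp_id,
    Category.id_comp]

lemma IsFrob.nat1_pw (F : IsFrob K fr) {M N : C} (g : M ⟶ N) (n : ℕ) :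
    g ≫ pw (fr1 fr N) n = pw (fr1 fr M) n ≫ g := by
  induction n with
  | zero => simp [pw]
  | succ n ih => rw [pw, pw, Category.assoc, ← ih, ← Category.assoc, F.nat1, Category.assoc]

lemma IsFrob.fr1_comp (F : IsFrob K fr) {M : C} (f : 𝟙_ C ⟶ M) : f ≫ fr1 fr M = 0 := by
  rw [F.nat1, fr1, F.unit, sub_self, Limits.zero_comp]

/-- Decomposition into the unipotent part and a part without invariants. -/
lemma exists_dec (F : IsFrob K fr) (hE : EndUnit C) (M : C) : ∃ (A B : C) (_ : Dec M A B) (N : ℕ),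
    pw (fr1 fr A) N = 0 ∧ ∀ f : 𝟙_ C ⟶ B, f = 0 := by
  obtain ⟨e, b, k, he, hk, hb⟩ := exists_fitting_hom (F.finite_hom hE M M) (fr1 fr M)
  obtain ⟨A, i, r, h1, h2⟩ := IsIdempotentComplete.idempotents_split M e he
  have he2 : (𝟙 M - e) ≫ (𝟙 M - e) = 𝟙 M - e := by
    rw [Preadditive.sub_comp, Preadditive.comp_sub, Preadditive.comp_sub, he]
    simp
  obtain ⟨B, i', r', h3, h4⟩ := IsIdempotentComplete.idempotents_split M (𝟙 M - e) he2
  refine ⟨A, B, ⟨i, r, i', r', h1, h3, by rw [h2, h4]; abel⟩, k, ?_, ?_⟩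
  · have h5 : pw (fr1 fr A) k = i ≫ (e ≫ pw (fr1 fr M) k) ≫ r := by
      rw [← h2]
      simp only [Category.assoc]
      rw [← Category.assoc i r, h1, Category.id_comp, ← Category.assoc i, F.nat1_pw,
        Category.assoc, h1, Category.comp_id]
    rw [h5, hk, Limits.zero_comp, Limits.comp_zero]
  · intro f
    have h5 : (f ≫ i') ≫ (𝟙 M - e) = 0 := by
      rw [hb, ← Category.assoc, F.fr1_comp, Limits.zero_comp]
    rw [← h4, Category.assoc, ← Category.assoc i', h3, Category.id_comp] at h5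
    have h6 : f = (f ≫ i') ≫ r' := by rw [Category.assoc, h3, Category.comp_id]
    rw [h6, h5, Limits.zero_comp]

/-- The identity of `M` is a sum of compositions `M ⟶ 𝟙 ⟶ M`. -/
def Split (M : C) : Prop :=
  ∃ (n : ℕ) (h : Fin n → (M ⟶ 𝟙_ C)) (g : Fin n → (𝟙_ C ⟶ M)), 𝟙 M = ∑ i, h i ≫ g i

theorem IsMonFrob.split (F : IsMonFrob K fr) (hE : EndUnit C) (k : ℕ) : ∀ (M : C) (m : K →₀ ℤ)
    (N : ℕ), IsZeta K (fr M) m → m 1 = k → pw (fr1 fr M) N = 0 →
      Module.finrank ℚ (𝟙_ C ⟶ M) = k → Split M := by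
  induction k with
  | zero =>
    intro M m N hm hk hN _
    have h1 := hm.unip hE.1 N (by rw [pw_eq] at hN; exact hN)
    refine ⟨0, fun _ => 0, fun _ => 0, ?_⟩
    rw [Fin.sum_univ_zero]
    apply F.zero_of_tr hE
    intro n
    obtain ⟨r, hr, hr2⟩ := hm n
    rw [h1, hk] at hr2
    simp only [Nat.cast_zero, Finsupp.single_zero, Finsupp.sum_zero_index, Rat.cast_eq_zero] at hr2
    rw [hr, hr2, zero_smul]
  | succ k ih =>
    intro M m N hm hk hN hd
    obtain ⟨f, hf⟩ : ∃ f : 𝟙_ C ⟶ M, f ≠ 0 := by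
      by_contra h0
      push Not at h0
      have : Subsingleton (𝟙_ C ⟶ M) := ⟨fun f g => by rw [h0 f, h0 g]⟩
      rw [Module.finrank_zero_of_subsingleton] at hd
      omega
    obtain ⟨m', hm', _⟩ := F.zeta (cokernel f)
    have h1 := F.toIsFrob.zeta_coker hf hm hm'
    have hk' : m' 1 = k := by
      rw [h1, Finsupp.add_apply, Finsupp.single_eq_same] at hk
      push_cast at hk
      omega
    obtain ⟨h2, h3⟩ := F.toIsFrob.dim_le hE hm'
    obtain ⟨h2', _⟩ := F.toIsFrob.dim_le hE hm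
    set p := cokernel.π f with hp
    set L : (𝟙_ C ⟶ M) →ₗ[ℚ] (𝟙_ C ⟶ cokernel f) := Linear.rightComp ℚ _ p with hL
    have hker : LinearMap.ker L ≤ Submodule.span ℚ {f} := by
      intro g hg
      obtain ⟨c, hc⟩ := exists_smul hE f hf g hg
      rw [hc]
      exact Submodule.smul_mem _ _ (Submodule.mem_span_singleton_self f)
    have h7 := LinearMap.finrank_range_add_finrank_ker L
    have h9 : Module.finrank ℚ (LinearMap.ker L) ≤ 1 :=
      (Submodule.finrank_mono hker).trans (finrank_span_singleton hf).le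
    have h10 : Module.finrank ℚ (LinearMap.range L) ≤ Module.finrank ℚ (𝟙_ C ⟶ cokernel f) :=
      Submodule.finrank_le _
    have h11 : Module.finrank ℚ (𝟙_ C ⟶ cokernel f) = k := by
      rw [hk'] at h3
      have : Module.finrank ℚ (𝟙_ C ⟶ cokernel f) ≤ k := by exact_mod_cast h3
      omega
    have hsurj : LinearMap.range L = ⊤ := by
      apply Submodule.eq_top_of_finrank_eq
      omega
    have hN' : pw (fr1 fr (cokernel f)) N = 0 := by
      rw [← cancel_epi p, F.toIsFrob.nat1_pw, hN, Limits.zero_comp, Limits.comp_zero]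
    obtain ⟨n, h, g, hid⟩ := ih _ m' N hm' hk' hN' h11
    have hlift : ∀ i, ∃ g' : 𝟙_ C ⟶ M, g' ≫ p = g i := by
      intro i
      have : g i ∈ LinearMap.range L := by rw [hsurj]; exact Submodule.mem_top
      exact this
    choose g' hg' using hlift
    set e : M ⟶ M := ∑ i, (p ≫ h i) ≫ g' i with he
    have he1 : (𝟙 M - e) ≫ p = 0 := by
      rw [Preadditive.sub_comp, Category.id_comp, he, Preadditive.sum_comp, sub_eq_zero]
      conv_lhs => rw [← Category.comp_id p, hid, Preadditive.comp_sum]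
      refine Finset.sum_congr rfl fun i _ => ?_
      rw [Category.assoc, hg', Category.assoc]
    have hmono := mono_of_ne_zero hE f hf
    set t : M ⟶ 𝟙_ C := Abelian.monoLift f (𝟙 M - e) he1 with ht
    have ht1 : t ≫ f = 𝟙 M - e := Abelian.monoLift_comp f _ he1
    refine ⟨n + 1, Fin.cons t fun i => p ≫ h i, Fin.cons f g', ?_⟩
    rw [Fin.sum_univ_succ]
    simp only [Fin.cons_zero, Fin.cons_succ]
    rw [ht1, ← he]
    abel

lemma Split.numTriv {M : C} (h : Split M) : numTriv M = ⊥ := by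
  obtain ⟨n, h, g, hid⟩ := h
  rw [eq_bot_iff]
  intro f hf
  rw [Submodule.mem_bot]
  have h1 : f = f ≫ 𝟙 M := by rw [Category.comp_id]
  rw [h1, hid, Preadditive.comp_sum]
  refine Finset.sum_eq_zero fun i _ => ?_
  rw [← Category.assoc, hf (h i), Limits.zero_comp]

/-- The case of equality. -/
theorem IsMonFrob.eq_case (F : IsMonFrob K fr) (hE : EndUnit C) {M : C} {m : K →₀ ℤ}
    (hm : IsZeta K (fr M) m) (hd : (Module.finrank ℚ (𝟙_ C ⟶ M) : ℤ) = m 1) : numTriv M = ⊥ := by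
  obtain ⟨A, B, D, N, hN, hB⟩ := exists_dec F.toIsFrob hE M
  obtain ⟨a, ha, ha0⟩ := F.zeta A
  obtain ⟨b, hb, hb0⟩ := F.zeta B
  have h1 := D.zeta F.toIsFrob hE.1 hm ha hb
  obtain ⟨h2, h3⟩ := F.toIsFrob.dim_le hE ha
  have h4 : Module.finrank ℚ (𝟙_ C ⟶ M) ≤ Module.finrank ℚ (𝟙_ C ⟶ A) := by
    refine LinearMap.finrank_le_finrank_of_injective
      (f := (Linear.rightComp ℚ _ D.r : (𝟙_ C ⟶ M) →ₗ[ℚ] (𝟙_ C ⟶ A))) ?_
    rw [← LinearMap.ker_eq_bot, LinearMap.ker_eq_bot']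
    intro f hf
    have hf' : f ≫ D.r = 0 := hf
    have h5 : f = (f ≫ D.r) ≫ D.i + (f ≫ D.r') ≫ D.i' := by
      rw [Category.assoc, Category.assoc, ← Preadditive.comp_add, D.sum, Category.comp_id]
    rw [h5, hf', hB (f ≫ D.r'), Limits.zero_comp, Limits.zero_comp, add_zero]
  have h5 : m 1 = a 1 + b 1 := by rw [h1, Finsupp.add_apply]
  have h6 : (Module.finrank ℚ (𝟙_ C ⟶ A) : ℤ) = a 1 := by omega
  have h7 := F.split hE (Module.finrank ℚ (𝟙_ C ⟶ A)) A a N ha h6.symm hN rfl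
  rw [eq_bot_iff]
  intro f hf
  rw [Submodule.mem_bot]
  have h8 : f ≫ D.r ∈ numTriv A := by
    intro g
    rw [Category.assoc]
    exact hf _
  rw [h7.numTriv, Submodule.mem_bot] at h8
  have h9 : f = (f ≫ D.r) ≫ D.i + (f ≫ D.r') ≫ D.i' := by
    rw [Category.assoc, Category.assoc, ← Preadditive.comp_add, D.sum, Category.comp_id]
  rw [h9, h8, hB (f ≫ D.r'), Limits.zero_comp, Limits.zero_comp, add_zero]

/-- There is a space of dimension at least `n` of endomorphisms whose nonzero elements are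
invertible modulo numerical equivalence. -/
def ManyIso (M : C) (n : ℤ) : Prop :=
  ∃ D : Submodule ℚ (M ⟶ M), (∀ φ ∈ D, φ ≠ 0 → ∃ ψ : M ⟶ M, ∀ χ : M ⟶ M,
    tr M Mᘁ ((φ ≫ ψ - 𝟙 M) ≫ χ) = 0) ∧ n ≤ Module.finrank ℚ D

lemma comp_pw {M : C} {f : 𝟙_ C ⟶ M} {ν : M ⟶ M} (h : f ≫ ν = -f) (n : ℕ) :
    f ≫ pw ν n = (-1 : ℚ) ^ n • f := by
  induction n with
  | zero => simp [pw]
  | succ n ih =>
    rw [pw, ← Category.assoc, h, Preadditive.neg_comp, ih, pow_succ, mul_neg_one, neg_smul]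

theorem IsMonFrob.rank_one (F : IsMonFrob K fr) (hE : EndUnit C) {M : C} {m : K →₀ ℤ}
    (hm : IsZeta K (fr M) m) (hD : ManyIso M (m 1)) : numTriv M = ⊥ := by
  obtain ⟨D, h1, h2⟩ := hD
  obtain ⟨h3, h4⟩ := F.toIsFrob.dim_le hE hm
  by_cases h0 : ∀ f : 𝟙_ C ⟶ M, f = 0
  · rw [eq_bot_iff]
    intro f _
    rw [Submodule.mem_bot]
    exact h0 f
  push Not at h0
  obtain ⟨f, hf⟩ := h0
  apply F.eq_case hE hm
  have h5 : Module.finrank ℚ D ≤ Module.finrank ℚ (𝟙_ C ⟶ M) := by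
    refine LinearMap.finrank_le_finrank_of_injective
      (f := (Linear.leftComp ℚ M f).comp D.subtype) ?_
    rw [← LinearMap.ker_eq_bot, LinearMap.ker_eq_bot']
    rintro ⟨φ, hφ⟩ h6
    have h7 : f ≫ φ = 0 := h6
    by_contra h8
    have h9 : φ ≠ 0 := fun h => h8 (Subtype.ext h)
    obtain ⟨ψ, hψ⟩ := h1 φ hφ h9
    obtain ⟨n, hn⟩ := F.toIsFrob.nilpotent hE (φ ≫ ψ - 𝟙 M) hψ
    have h10 : f ≫ (φ ≫ ψ - 𝟙 M) = -f := by
      rw [Preadditive.comp_sub, ← Category.assoc, h7, Limits.zero_comp, Category.comp_id, zero_sub]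
    have h11 := comp_pw h10 n
    rw [hn, Limits.comp_zero] at h11
    exact hf ((smul_eq_zero.1 h11.symm).resolve_left (pow_ne_zero _ (by norm_num)))
  omega

end Pool.Agent.NH36.Ab
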