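import Mathlib

/-!
# Traces in symmetric monoidal categories
-/

set_option autoImplicit false
set_option linter.unusedSectionVars false

open CategoryTheory MonoidalCategory BraidedCategory

universe v u

namespace Pool.Agent.NH36.Ab

variable {C : Type u} [Category.{v} C] [MonoidalCategory C] [BraidedCategory C]

/-- The evaluation `X ⊗ Y ⟶ 𝟙` obtained from the braiding. -/
def tt (X Y : C) [ExactPairing X Y] : X ⊗ Y ⟶ 𝟙_ C := (β_ X Y).hom ≫ ε_ X Y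

/-- The trace of an endomorphism. -/
def tr (X Y : C) [ExactPairing X Y] (b : X ⟶ X) : 𝟙_ C ⟶ 𝟙_ C := η_ X Y ≫ b ▷ Y ≫ tt X Y

/-- The partial trace. -/
def ptr (X Y : C) [ExactPairing X Y] {M : C} (t : X ⟶ M ⊗ X) : 𝟙_ C ⟶ M :=
  η_ X Y ≫ t ▷ Y ≫ (α_ M X Y).hom ≫ M ◁ tt X Y ≫ (ρ_ M).hom

/-- The mate of a morphism. -/
def mate {X Y X' Y' : C} [ExactPairing X Y] [ExactPairing X' Y'] (u : X ⟶ X') : Y' ⟶ Y :=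
  @rightAdjointMate C _ _ X X' ⟨Y⟩ ⟨Y'⟩ u

section

variable {X Y X' Y' : C} [ExactPairing X Y] [ExactPairing X' Y']

lemma mate_coev (u : X ⟶ X') : η_ X' Y' ≫ X' ◁ (mate u : Y' ⟶ Y) = η_ X Y ≫ u ▷ Y :=
  @coevaluation_comp_rightAdjointMate C _ _ X X' ⟨Y⟩ ⟨Y'⟩ u

lemma mate_ev (u : X ⟶ X') : (mate u : Y' ⟶ Y) ▷ X ≫ ε_ X Y = Y' ◁ u ≫ ε_ X' Y' :=
  @rightAdjointMate_comp_evaluation C _ _ X X' ⟨Y⟩ ⟨Y'⟩ u

lemma mate_tt (u : X ⟶ X') : X ◁ (mate u : Y' ⟶ Y) ≫ tt X Y = u ▷ Y' ≫ tt X' Y' := by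
  rw [tt, tt, braiding_naturality_right_assoc, mate_ev, braiding_naturality_left_assoc]

lemma tr_comm (u : X ⟶ X') (w : X' ⟶ X) : tr X Y (u ≫ w) = tr X' Y' (w ≫ u) := by
  rw [tr, tr, comp_whiskerRight, Category.assoc, ← Category.assoc (η_ X Y), ← mate_coev (Y' := Y') u,
    Category.assoc, whisker_exchange_assoc, mate_tt, comp_whiskerRight, Category.assoc]

lemma ptr_comm {M : C} (u : X ⟶ X') (t : X' ⟶ M ⊗ X) :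
    ptr X Y (u ≫ t) = ptr X' Y' (t ≫ M ◁ u) := by
  rw [ptr, ptr, comp_whiskerRight, Category.assoc, ← Category.assoc (η_ X Y),
    ← mate_coev (Y' := Y') u, Category.assoc, whisker_exchange_assoc, comp_whiskerRight,
    Category.assoc]
  have h1 : (M ⊗ X) ◁ (mate u : Y' ⟶ Y) ≫ (α_ M X Y).hom ≫ M ◁ tt X Y =
      (M ◁ u) ▷ Y' ≫ (α_ M X' Y').hom ≫ M ◁ tt X' Y' := by
    rw [associator_naturality_middle_assoc, ← MonoidalCategory.whiskerLeft_comp,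
      ← mate_tt (Y := Y) u, MonoidalCategory.whiskerLeft_comp, associator_naturality_right_assoc]
  rw [reassoc_of% h1]

end

lemma tr_indep (X Y Y' : C) [p : ExactPairing X Y] [p' : ExactPairing X Y'] (b : X ⟶ X) :
    tr X Y b = tr X Y' b := by
  have := tr_comm (X := X) (Y := Y) (X' := X) (Y' := Y') (𝟙 X) b
  rwa [Category.id_comp, Category.comp_id] at this

/-- Contraction of `f ⊗ c`. -/
lemma ptr_left (X Y : C) [ExactPairing X Y] {M : C} (f : 𝟙_ C ⟶ M) (c : X ⟶ X) :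
    ptr X Y ((λ_ X).inv ≫ f ▷ X ≫ M ◁ c) = tr X Y c ≫ f := by
  have h1 : ((λ_ X).inv ≫ f ▷ X ≫ M ◁ c) ▷ Y ≫ (α_ M X Y).hom ≫ M ◁ tt X Y ≫ (ρ_ M).hom =
      (λ_ (X ⊗ Y)).inv ≫ f ▷ (X ⊗ Y) ≫ M ◁ (c ▷ Y ≫ tt X Y) ≫ (ρ_ M).hom := by
    simp
  rw [ptr, h1, ← whisker_exchange_assoc, rightUnitor_naturality, tr, id_whiskerLeft,
    ← unitors_equal]
  simp

/-- Contraction of `id ⊗ g`. -/
lemma ptr_right (X Y : C) [ExactPairing X Y] (g : 𝟙_ C ⟶ X) :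
    ptr X Y ((ρ_ X).inv ≫ X ◁ g) = g := by
  have h0 : g ▷ Y ≫ (β_ X Y).hom = (λ_ Y).hom ≫ (ρ_ Y).inv ≫ Y ◁ g := by
    rw [braiding_naturality_left]
    simp
  have h1 : ((ρ_ X).inv ≫ X ◁ g) ▷ Y ≫ (α_ X X Y).hom ≫ X ◁ tt X Y ≫ (ρ_ X).hom =
      (ρ_ (X ⊗ Y)).inv ≫ (X ⊗ Y) ◁ g ≫ (α_ X Y X).hom ≫ X ◁ ε_ X Y ≫ (ρ_ X).hom := by
    have h2 : ((ρ_ X).inv ≫ X ◁ g) ▷ Y ≫ (α_ X X Y).hom ≫ X ◁ tt X Y ≫ (ρ_ X).hom =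
        X ◁ (λ_ Y).inv ≫ X ◁ (g ▷ Y ≫ tt X Y) ≫ (ρ_ X).hom := by
      simp
    rw [h2, tt, reassoc_of% h0]
    simp
  rw [ptr, h1]
  have h3 : η_ X Y ≫ (ρ_ (X ⊗ Y)).inv ≫ (X ⊗ Y) ◁ g = (λ_ (𝟙_ C)).inv ≫ 𝟙_ C ◁ g ≫ η_ X Y ▷ X := by
    rw [whisker_exchange, unitors_inv_equal]
    simp
  rw [reassoc_of% h3, ExactPairing.evaluation_coevaluation_assoc]
  simp

/-- The trace of the identity of an object whose self-braiding is trivial. -/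
lemma tr_id_of_braid (X Y : C) [ExactPairing X Y] (hβ : (β_ X X).hom = 𝟙 _) :
    tr X Y (𝟙 X) ▷ X = 𝟙 (𝟙_ C ⊗ X) := by
  have h1 : (β_ X (Y ⊗ X)).hom ≫ ε_ X Y ▷ X = X ◁ ε_ X Y ≫ (β_ X (𝟙_ C)).hom :=
    (braiding_naturality_right X (ε_ X Y)).symm
  rw [braiding_tensor_right_hom, hβ] at h1
  simp only [MonoidalCategory.whiskerLeft_id, Category.id_comp, Category.assoc,
    Iso.hom_inv_id_assoc] at h1
  have h2 : (β_ X Y).hom ▷ X ≫ ε_ X Y ▷ X = (α_ X Y X).hom ≫ X ◁ ε_ X Y ≫ (β_ X (𝟙_ C)).hom := by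
    rw [← h1]
    simp
  rw [tr, tt, id_whiskerRight, Category.id_comp, comp_whiskerRight, comp_whiskerRight, h2,
    ExactPairing.evaluation_coevaluation_assoc]
  simp

/-- Every functional on `W ⊗ Y` comes from a morphism to `X`. -/
lemma exists_tt (X Y W : C) [ExactPairing X Y] (h : W ⊗ Y ⟶ 𝟙_ C) :
    ∃ s : W ⟶ X, h = s ▷ Y ≫ tt X Y := by
  letI : ExactPairing Y X := exactPairing_swap X Y
  refine ⟨tensorRightHomEquiv W Y X (𝟙_ C) h ≫ (λ_ X).hom, ?_⟩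
  have h1 := (tensorRightHomEquiv W Y X (𝟙_ C)).symm_apply_apply h
  conv_lhs => rw [← h1]
  change _ ▷ Y ≫ (α_ _ _ _).hom ≫ (𝟙_ C) ◁ tt X Y ≫ (ρ_ (𝟙_ C)).hom = _
  generalize (tensorRightHomEquiv W Y X (𝟙_ C)) h = s'
  rw [id_whiskerLeft, ← unitors_equal]
  simp

/-- A trace on a tensor product is a trace on the first factor. -/
lemma tr_tensor (X₁ Y₁ X₂ Y₂ : C) [ExactPairing X₁ Y₁] [ExactPairing X₂ Y₂]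
    (t : X₁ ⊗ X₂ ⟶ X₁ ⊗ X₂) :
    ∃ ψ : X₁ ⟶ X₁, tr (X₁ ⊗ X₂) (Y₂ ⊗ Y₁) t = tr X₁ Y₁ ψ := by
  obtain ⟨s, hs⟩ := exists_tt X₁ Y₁ ((X₁ ⊗ X₂) ⊗ Y₂)
    ((α_ (X₁ ⊗ X₂) Y₂ Y₁).hom ≫ tt (X₁ ⊗ X₂) (Y₂ ⊗ Y₁))
  refine ⟨(ρ_ X₁).inv ≫ X₁ ◁ η_ X₂ Y₂ ≫ (α_ X₁ X₂ Y₂).inv ≫ t ▷ Y₂ ≫ s, ?_⟩
  have h1 : tt (X₁ ⊗ X₂) (Y₂ ⊗ Y₁) = (α_ (X₁ ⊗ X₂) Y₂ Y₁).inv ≫ s ▷ Y₁ ≫ tt X₁ Y₁ := by
    rw [← hs]
    simp
  rw [tr, tr, h1, ExactPairing.tensor_coevaluation]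
  simp [monoidalComp]

end Pool.Agent.NH36.Ab
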